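import Pool.Agent.Run7.h680.BD.Stm

/-! Piece BFS of MP_5f065d_co (project of helper680), by helper930. -/

set_option autoImplicit false

namespace Pool.Agent.Run7.h930.BD

open SimpleGraph Pool.Agent.Run7.h680.BD

/-- piece BFS -/
theorem t_BFS : S_BFS := by
  classical
  intro V _ H K hK hcard
  have hex : ∀ z, ∃ n, ∃ k ∈ K, ∃ w : H.Walk z k, w.length = n := by
    intro z
    obtain ⟨k, hk, ⟨w⟩⟩ := hK z
    exact ⟨w.length, k, hk, w, rfl⟩
  let lv : V → ℕ := fun z => Nat.find (hex z)
  have hmin : ∀ z k, k ∈ K → ∀ w : H.Walk z k, lv z ≤ w.length := fun z k hk w =>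
    Nat.find_min' (hex z) ⟨k, hk, w, rfl⟩
  have hstep : ∀ z, z ∉ K → ∃ y, H.Adj z y ∧ lv z = lv y + 1 := by
    intro z hz
    obtain ⟨k, hk, w, hw⟩ := Nat.find_spec (hex z)
    cases w with
    | nil => exact absurd hk hz
    | @cons _ y _ h w' =>
      refine ⟨y, h, ?_⟩
      have h1 := hmin y k hk w'
      obtain ⟨k', hk', w'', hw''⟩ := Nat.find_spec (hex y)
      have h2 := hmin z k' hk' (Walk.cons h w'')
      rw [Walk.length_cons] at h2 hw
      have h3 : w''.length = lv y := hw''
      have h4 : w'.length + 1 = lv z := hw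
      omega
  choose! q hq using hstep
  let g : V → Sym2 V := fun z => s(z, q z)
  have hinj : Set.InjOn g Kᶜ := by
    intro z hz z' hz' he
    have he' : s(z, q z) = s(z', q z') := he
    rw [Sym2.eq_iff] at he'
    rcases he' with ⟨h, -⟩ | ⟨h, h'⟩
    · exact h
    · have h1 := (hq z hz).2
      have h2 := (hq z' hz').2
      rw [h'] at h1
      rw [← h] at h2
      omega
  have hsub : g '' Kᶜ ⊆ H.edgeSet := by
    rintro _ ⟨z, hz, rfl⟩
    exact (hq z hz).1
  have heq : g '' Kᶜ = H.edgeSet := by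
    refine Set.eq_of_subset_of_ncard_le hsub ?_ (Set.toFinite _)
    rw [hinj.ncard_image]
    exact hcard
  refine ⟨fun z => if z ∈ K then none else some (q z), lv, ?_, ?_, ?_, hmin⟩
  · intro z
    by_cases hz : z ∈ K <;> simp [hz]
  · intro z y hzy
    by_cases hz : z ∈ K
    · simp [hz] at hzy
    · simp only [hz, if_false, Option.some.injEq] at hzy
      rw [← hzy]
      exact hq z hz
  · intro x y hxy
    have hm : s(x, y) ∈ g '' Kᶜ := by
      rw [heq]
      exact hxy
    obtain ⟨z, hz, he⟩ := hm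
    have he' : s(z, q z) = s(x, y) := he
    have hz' : z ∉ K := hz
    rw [Sym2.eq_iff] at he'
    rcases he' with ⟨rfl, rfl⟩ | ⟨rfl, rfl⟩
    · left; simp [hz']
    · right; simp [hz']

end Pool.Agent.Run7.h930.BD
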