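import Pool.Agent.Run7.h680.BD.Stm

/-! Piece DEC of MP_5f065d_co (project of helper680), by helper930. -/

set_option autoImplicit false

namespace Pool.Agent.Run7.h930.BD

open SimpleGraph Pool.Agent.Run7.h680.BD Pool.Agent.TH87.BD

/-- piece DEC -/
theorem t_DEC : S_DEC := by
  classical
  intro V _ B p p₂ l₂ s e M h2 h2' hpB hpp hM he he2
  let q₁ : V → Option V := fun x => if s x = true then p x else p₂ x
  let q₂ : V → Option V := fun x => if s x = true then p₂ x else p x
  have hq : ∀ x, (q₁ x = p x ∧ q₂ x = p₂ x ∧ s x = true) ∨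
      (q₁ x = p₂ x ∧ q₂ x = p x ∧ s x = false) := by
    intro x
    by_cases h : s x = true
    · exact Or.inl ⟨if_pos h, if_pos h, h⟩
    · exact Or.inr ⟨if_neg h, if_neg h, by simpa using h⟩
  let φ₁ : V → Fin M := fun z => ⟨e true z, hM true z⟩
  let φ₂ : V → Fin M := fun z => ⟨e false z, hM false z⟩
  have pot1 : ∀ x y, q₁ x = some y → φ₁ x < φ₁ y := by
    intro x y hxy
    rcases hq x with ⟨ha, -, hs⟩ | ⟨ha, -, hs⟩
    · rw [ha] at hxy
      have := he x y hxy
      rw [hs] at this
      exact this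
    · rw [ha] at hxy
      have := he2 x y hxy
      rw [hs] at this
      exact this
  have pot2 : ∀ x y, q₂ x = some y → φ₂ x < φ₂ y := by
    intro x y hxy
    rcases hq x with ⟨-, ha, hs⟩ | ⟨-, ha, hs⟩
    · rw [ha] at hxy
      have := he2 x y hxy
      rw [hs] at this
      exact this
    · rw [ha] at hxy
      have := he x y hxy
      rw [hs] at this
      exact this
  have some1 : ∀ x y, q₁ x = some y → p x = some y ∨ p₂ x = some y := by
    intro x y hxy
    rcases hq x with ⟨ha, -, -⟩ | ⟨ha, -, -⟩ <;> rw [ha] at hxy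
    · exact Or.inl hxy
    · exact Or.inr hxy
  have some2 : ∀ x y, q₂ x = some y → p x = some y ∨ p₂ x = some y := by
    intro x y hxy
    rcases hq x with ⟨-, ha, -⟩ | ⟨-, ha, -⟩ <;> rw [ha] at hxy
    · exact Or.inr hxy
    · exact Or.inl hxy
  have hne : ∀ x y, p x = some y ∨ p₂ x = some y → x ≠ y := by
    rintro x y (h | h)
    · rintro rfl
      exact lt_irrefl _ (he x x h)
    · exact (h2 x y h).1.ne
  have adj : ∀ (q : V → Option V) (x y : V),
      (SimpleGraph.fromRel fun x y => q x = some y).Adj x y ↔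
        x ≠ y ∧ (q x = some y ∨ q y = some x) := fun q x y => SimpleGraph.fromRel_adj _ _ _
  have nboth : ∀ x y, ¬ ((p x = some y ∨ p₂ x = some y) ∧ (p y = some x ∨ p₂ y = some x)) := by
    rintro x y ⟨h | h, h' | h'⟩
    · exact hpp x y h h'
    · exact hpB x y h (h2 y x h').1.symm
    · exact hpB y x h' (h2 x y h).1.symm
    · have := (h2 x y h).2
      have := (h2 y x h').2
      omega
  have nsame : ∀ x y, ¬ (q₁ x = some y ∧ q₂ x = some y) := by
    rintro x y ⟨ha, hb⟩
    rcases hq x with ⟨hc, hc', -⟩ | ⟨hc, hc', -⟩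
    · rw [hc] at ha
      rw [hc'] at hb
      exact hpB x y ha (h2 x y hb).1
    · rw [hc] at ha
      rw [hc'] at hb
      exact hpB x y hb (h2 x y ha).1
  refine ⟨SimpleGraph.fromRel fun x y => q₁ x = some y, SimpleGraph.fromRel fun x y => q₂ x = some y,
    ?_, ?_, ?_, ?_, ?_, ?_⟩
  · intro x y
    rw [SimpleGraph.sup_adj, adj, adj]
    constructor
    · rintro (⟨-, h | h⟩ | ⟨-, h | h⟩)
      · rcases some1 x y h with h | h
        · exact Or.inr (Or.inl h)
        · exact Or.inl (h2 x y h).1
      · rcases some1 y x h with h | h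
        · exact Or.inr (Or.inr h)
        · exact Or.inl (h2 y x h).1.symm
      · rcases some2 x y h with h | h
        · exact Or.inr (Or.inl h)
        · exact Or.inl (h2 x y h).1
      · rcases some2 y x h with h | h
        · exact Or.inr (Or.inr h)
        · exact Or.inl (h2 y x h).1.symm
    · have hmain : ∀ x y, p x = some y ∨ p₂ x = some y → q₁ x = some y ∨ q₂ x = some y := by
        rintro x y (h | h)
        · rcases hq x with ⟨hc, hc', -⟩ | ⟨hc, hc', -⟩
          · exact Or.inl (hc.trans h)
          · exact Or.inr (hc'.trans h)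
        · rcases hq x with ⟨hc, hc', -⟩ | ⟨hc, hc', -⟩
          · exact Or.inr (hc'.trans h)
          · exact Or.inl (hc.trans h)
      intro h
      have hor : (p x = some y ∨ p₂ x = some y) ∨ (p y = some x ∨ p₂ y = some x) := by
        rcases h with h | h | h
        · rcases h2' x y h with h | h
          · exact Or.inl (Or.inr h)
          · exact Or.inr (Or.inr h)
        · exact Or.inl (Or.inl h)
        · exact Or.inr (Or.inl h)
      rcases hor with h | h
      · rcases hmain x y h with h' | h'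
        · exact Or.inl ⟨hne x y h, Or.inl h'⟩
        · exact Or.inr ⟨hne x y h, Or.inl h'⟩
      · rcases hmain y x h with h' | h'
        · exact Or.inl ⟨(hne y x h).symm, Or.inr h'⟩
        · exact Or.inr ⟨(hne y x h).symm, Or.inr h'⟩
  · rw [SimpleGraph.disjoint_left]
    intro x y ha hb
    rw [adj] at ha hb
    rcases ha.2 with h | h <;> rcases hb.2 with h' | h'
    · exact nsame x y ⟨h, h'⟩
    · exact nboth x y ⟨some1 x y h, some2 y x h'⟩
    · exact nboth x y ⟨some2 x y h', some1 y x h⟩
    · exact nsame y x ⟨h, h'⟩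
  · exact acyclic_of_pot q₁ φ₁ pot1 fun x y h => ((adj q₁ x y).1 h).2
  · exact acyclic_of_pot q₂ φ₂ pot2 fun x y h => ((adj q₂ x y).1 h).2
  · intro u v huv
    have := dist_of_pot q₁ φ₁ pot1 (fun x y h => ((adj q₁ x y).1 h).2)
      (fun x y h => (adj q₁ x y).2 ⟨hne x y (some1 x y h), Or.inl h⟩) u v huv
    rwa [Fintype.card_fin] at this
  · intro u v huv
    have := dist_of_pot q₂ φ₂ pot2
      (fun x y h => ((adj q₂ x y).1 h).2)
      (fun x y h => (adj q₂ x y).2 ⟨hne x y (some2 x y h), Or.inl h⟩) u v huv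
    rwa [Fintype.card_fin] at this

end Pool.Agent.Run7.h930.BD
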