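import Pool.Agent.Run7.h680.BD.Stm

/-! Piece SEL of MP_5f065d_co (project of helper680), by helper930. -/

set_option autoImplicit false

namespace Pool.Agent.Run7.h930.BD

open SimpleGraph Pool.Agent.Run7.h680.BD

/-- the graph without the edges at `c` -/
def Hm {V : Type} (H : SimpleGraph V) (c : V) : SimpleGraph V where
  Adj x y := H.Adj x y ∧ x ≠ c ∧ y ≠ c
  symm := ⟨fun _ _ h => ⟨h.1.symm, h.2.2, h.2.1⟩⟩
  loopless := ⟨fun _ h => h.1.ne rfl⟩

theorem Hm_le {V : Type} (H : SimpleGraph V) (c : V) : Hm H c ≤ H := fun _ _ h => h.1

theorem ne_of_walk {V : Type} (H : SimpleGraph V) (c : V) {x y : V} (w : (Hm H c).Walk x y)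
    (hx : x ≠ c) : y ≠ c := by
  induction w with
  | nil => exact hx
  | cons h _ ih => exact ih h.2.2

theorem const_of_walk {V : Type} (H : SimpleGraph V) (c : V) (g : V → ℚ)
    (hg : ∀ x y, H.Adj x y → H.Reachable c x → g x = g y) {x y : V} (w : H.Walk x y)
    (hx : H.Reachable c x) : g x = g y := by
  induction w with
  | nil => rfl
  | cons h _ ih => exact (hg _ _ h hx).trans (ih (hx.trans h.reachable))

theorem sel_aux {V : Type} [Fintype V] (K : Set V) : ∀ (n : ℕ) (H : SimpleGraph V) (r : V → V)
    (c : V), {x | H.Reachable c x}.ncard = n →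
    (∀ x, H.Reachable c x → r x ∈ K ∧ H.Reachable c (r x)) →
    ∃ (a : V) (X : H.Walk c a), a ∈ K ∧ X.IsPath ∧ (∀ b ∈ X.support, b ≠ a → b ∉ K) ∧
      ∀ g : V → ℚ, g a = 0 →
        (∀ x y, H.Adj x y → H.Reachable c x → s(x, y) ∉ X.edges → g x = g y) →
        (∀ b ∈ X.support, b ≠ a → g b = g (r b)) →
        ∀ x, H.Reachable c x → g x = 0 := by
  classical
  intro n
  induction n using Nat.strong_induction_on with
  | _ n ih =>
  intro H r c hn hr
  by_cases hcK : c ∈ K
  · refine ⟨c, Walk.nil, hcK, Walk.IsPath.nil, ?_, ?_⟩
    · intro b hb hne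
      rw [Walk.support_nil, List.mem_singleton] at hb
      exact absurd hb hne
    · intro g hg0 hgE _ x hx
      obtain ⟨w⟩ := hx
      rw [← const_of_walk H c g (fun x y h hx => hgE x y h hx (by simp)) w (Reachable.refl c)]
      exact hg0
  · obtain ⟨hrcK, hrc⟩ := hr c (Reachable.refl c)
    obtain ⟨P, hP⟩ := hrc.exists_isPath
    have key : ∃ (c' : V) (_ : H.Adj c c'), (Hm H c).Reachable c' (r c) := by
      revert P
      generalize hz : r c = z at hrcK
      intro P hP
      cases P with
      | nil => exact absurd hrcK hcK
      | @cons _ c' _ h P' =>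
        rw [Walk.cons_isPath_iff] at hP
        refine ⟨c', h, ⟨P'.transfer (Hm H c) ?_⟩⟩
        intro e he
        induction e using Sym2.ind with
        | _ x y =>
        refine ⟨P'.adj_of_mem_edges he, ?_, ?_⟩
        · rintro rfl
          exact hP.2 (P'.fst_mem_support_of_mem_edges he)
        · rintro rfl
          exact hP.2 (P'.snd_mem_support_of_mem_edges he)
    obtain ⟨c', h, hrc'⟩ := key
    have hc'ne : c' ≠ c := h.ne.symm
    have hsubset : ∀ x, (Hm H c).Reachable c' x → H.Reachable c x := fun x hx =>
      h.reachable.trans (hx.mono (Hm_le H c))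
    have hcnot : ∀ x, (Hm H c).Reachable c' x → x ≠ c := by
      rintro x ⟨w⟩
      exact ne_of_walk H c w hc'ne
    have hlt : {x | (Hm H c).Reachable c' x}.ncard < n := by
      rw [← hn]
      refine Set.ncard_lt_ncard ⟨fun x hx => hsubset x hx, fun hs => ?_⟩ (Set.toFinite _)
      exact hcnot c (hs (Reachable.refl c)) rfl
    obtain ⟨a, X', haK, hX', hXK, hX'g⟩ := ih _ hlt (Hm H c)
      (fun x => if (Hm H c).Reachable c' (r x) then r x else r c) c' rfl (by
        intro x hx
        by_cases hx' : (Hm H c).Reachable c' (r x)
        · simp only [hx', if_true]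
          exact ⟨(hr x (hsubset x hx)).1, trivial⟩
        · simp only [hx', if_false]
          exact ⟨hrcK, hrc'⟩)
    have hsup : ∀ b ∈ X'.support, (Hm H c).Reachable c' b := fun b hb => ⟨X'.takeUntil b hb⟩
    have hcX' : c ∉ X'.support := fun hc => hcnot c (hsup c hc) rfl
    have hac : c ≠ a := fun e => hcK (e ▸ haK)
    have hedges : ∀ x y, s(x, y) ∈ (Walk.cons h (X'.mapLe (Hm_le H c))).edges →
        s(x, y) = s(c, c') ∨ s(x, y) ∈ X'.edges := by
      intro x y hxy
      rw [Walk.edges_cons, List.mem_cons, Walk.edges_mapLe_eq_edges] at hxy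
      exact hxy
    refine ⟨a, Walk.cons h (X'.mapLe (Hm_le H c)), haK, ?_, ?_, ?_⟩
    · rw [Walk.cons_isPath_iff]
      refine ⟨(Walk.isPath_mapLe _).2 hX', ?_⟩
      rw [Walk.support_mapLe_eq_support]
      exact hcX'
    · intro b hb hne
      rw [Walk.support_cons, List.mem_cons, Walk.support_mapLe_eq_support] at hb
      rcases hb with rfl | hb
      · exact hcK
      · exact hXK b hb hne
    · intro g hg0 hgE hgR
      have hgR' : ∀ b ∈ X'.support, b ≠ a → g b = g (r b) := by
        intro b hb hne
        refine hgR b ?_ hne
        rw [Walk.support_cons, List.mem_cons, Walk.support_mapLe_eq_support]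
        exact Or.inr hb
      have hgc : g c = g (r c) := by
        refine hgR c ?_ hac
        rw [Walk.support_cons]
        exact List.mem_cons_self
      -- claim A
      have claimA : ∀ x, H.Reachable c x → ¬ (Hm H c).Reachable c' x → g x = g c := by
        have aux : ∀ (x z : V) (w : H.Walk x z), z = c → ¬ (Hm H c).Reachable c' x → g x = g c := by
          intro x z w
          induction w with
          | nil =>
            intro hz _
            rw [hz]
          | @cons x y z hxy w' ihw =>
            intro hz hx
            by_cases hxc : x = c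
            · rw [hxc]
            have hnotin : s(x, y) ∉ (Walk.cons h (X'.mapLe (Hm_le H c))).edges := by
              intro he
              rcases hedges x y he with he | he
              · rw [Sym2.eq_iff] at he
                rcases he with ⟨e1, -⟩ | ⟨e1, -⟩
                · exact hxc e1
                · exact hx (by rw [e1])
              · exact hx (hsup x (X'.fst_mem_support_of_mem_edges he))
            have hcx : H.Reachable c x := by
              refine Reachable.symm ?_
              rw [← hz]
              exact hxy.reachable.trans ⟨w'⟩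
            rw [hgE x y hxy hcx hnotin]
            by_cases hyc : y = c
            · rw [hyc]
            · refine ihw hz fun hy => hx (hy.trans ?_)
              exact Adj.reachable (G := Hm H c) ⟨hxy.symm, hyc, hxc⟩
        intro x hx hx'
        obtain ⟨w⟩ := hx
        exact aux x c w.reverse rfl hx'
      have claimB := hX'g g hg0 (by
        intro x y hxy hx hne
        refine hgE x y hxy.1 (hsubset x hx) fun he => ?_
        rcases hedges x y he with he | he
        · rw [Sym2.eq_iff] at he
          rcases he with ⟨e1, -⟩ | ⟨-, e1⟩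
          · exact hxy.2.1 e1
          · exact hxy.2.2 e1
        · exact hne he) (by
        intro b hb hne
        by_cases hb' : (Hm H c).Reachable c' (r b)
        · simp only [hb', if_true]
          exact hgR' b hb hne
        · simp only [hb', if_false]
          rw [hgR' b hb hne, ← hgc]
          exact claimA (r b) (hr b (hsubset b (hsup b hb))).2 hb')
      have hgc0 : g c = 0 := hgc.trans (claimB (r c) hrc')
      intro x hx
      by_cases hx' : (Hm H c).Reachable c' x
      · exact claimB x hx'
      · exact (claimA x hx hx').trans hgc0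

/-- piece SEL -/
theorem t_SEL : S_SEL := by
  intro V _ H K r c hr
  exact sel_aux K _ H r c rfl hr

end Pool.Agent.Run7.h930.BD
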